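import Pool.Agent.N19.BR.PDefs
import Pool.Agent.N683.AV.Inv

/-!
# The parity conjecture for semistable abelian varieties: definitions

`A` is a semistable abelian variety over a number field `K`.

At a finite place `v` of `K` let `X_v` be the character group of the toric part of the special fibre of
the Néron model of `A`, a free abelian group of finite rank `t_v`, with the action `Φ_v` of the
Frobenius of the residue field, an automorphism of finite order; `t_v = 0` for almost all `v` (good
reduction).  These data are called toric data.  If `F` is a finite extension of `K` and `w` a place of `F`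
above `v` with residue degree `f(w)`, then the toric data of `A` at `w` are `X_v` and `Φ_v ^ {f(w)}`, since
the identity component of the Néron model of a semistable abelian variety commutes with base change.

The local root number of `A` at `w` is `(-1) ^ b_w`, where `b_w` is the rank of the group of the elements
of `X_v` fixed by `Φ_v ^ {f(w)}` (for an elliptic curve: `-1` for split multiplicative reduction, `1` for
nonsplit multiplicative and good reduction), and it is `(-1) ^ g` at the archimedean places, `g = dim A`.

The group `A(K̄)` is considered as an abelian group with an action of the absolute Galois group of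
`K`; the group `A(F)` is the subgroup of the elements fixed by the absolute Galois group of `F`.
-/

set_option autoImplicit false

namespace Pool.Agent.N683.AV

open NumberField IsDedekindDomain
open Pool.Agent.R433.MD (Ext)
open scoped Classical

section
variable (K : Type) [Field K] [NumberField K]

/-- Toric data over `K`: for every finite place `v` the rank `t_v` of the character group of the torus,
`0` for almost all `v`, and the matrix `Φ_v` of the Frobenius, of finite order. -/
structure ToricData where
  /-- the rank of the torus at `v` -/
  t : HeightOneSpectrum (𝓞 K) → ℕ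
  /-- the Frobenius automorphism of the character group -/
  Φ : ∀ v, Matrix (Fin (t v)) (Fin (t v)) ℤ
  /-- almost all places are places of good reduction -/
  finite_bad : {v | t v ≠ 0}.Finite
  /-- the Frobenius has finite order -/
  finite_order : ∀ v, ∃ N : ℕ, 0 < N ∧ Φ v ^ N = 1

end

section
variable {K : Type} [Field K] [NumberField K] (D : ToricData K)

/-- The rank of the group of the elements of `X_v` fixed by the `f`-th power of the Frobenius `Φ_v`, that
is the dimension of the kernel of `Φ_v ^ f - 1` on `X_v ⊗ ℚ`: the size `t_v` of the matrix `Φ_v ^ f - 1`
minus its rank. -/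
noncomputable def ToricData.fixedRank (v : HeightOneSpectrum (𝓞 K)) (f : ℕ) : ℕ :=
  D.t v - ((D.Φ v ^ f - 1).map (Int.cast : ℤ → ℚ)).rank

/-- The place of `K` below the place `w` of the finite extension `F` of `K`. -/
noncomputable def below {F : Type} [Field F] [NumberField F] [Algebra K F]
    (w : HeightOneSpectrum (𝓞 F)) : HeightOneSpectrum (𝓞 K) where
  asIdeal := w.asIdeal.comap (algebraMap (𝓞 K) (𝓞 F))
  isPrime := w.isPrime.comap _
  ne_bot := (Pool.Agent.R433.MD.und (K := K) w).ne_bot

/-- `b_w`: the rank of the group of the elements of the character group of the torus at the place `w` of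
`F` fixed by the Frobenius at `w`. -/
noncomputable def ToricData.b {F : Type} [Field F] [NumberField F] [Algebra K F]
    (w : HeightOneSpectrum (𝓞 F)) : ℕ :=
  D.fixedRank (below (K := K) w) (w.asIdeal.inertiaDeg (𝓞 K))

/-- The root number over `F` of the semistable abelian variety over `K` of dimension `g` with the toric
data `D`: the product of the local root numbers, `(-1) ^ g` at every archimedean place and `(-1) ^ b_w` at
every finite place `w` of `F`. -/
noncomputable def ToricData.rootNumber (g : ℕ) (F : Type) [Field F] [NumberField F] [Algebra K F] : ℤ :=
  (∏ _v : InfinitePlace F, (-1) ^ g) * ∏ᶠ w : HeightOneSpectrum (𝓞 F), (-1) ^ D.b w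

end

section
variable {K : Type} [Field K] [NumberField K] {A : Type} [AddCommGroup A]
  (α : Representation ℤ Gal(AlgebraicClosure K/K) A)

/-- `A(F)`: the group of the elements of `A = A(K̄)` fixed by the absolute Galois group of `F`. -/
noncomputable def points (F : IntermediateField K (AlgebraicClosure K)) : Submodule ℤ A :=
  Representation.invariants (α.comp F.fixingSubgroup.subtype)

/-- `A(K)` -/
noncomputable def basePoints : Submodule ℤ A := Representation.invariants α

/-- The parity conjecture for `A` over `F`: the rank `r` of `A(F)` is finite and
`(-1) ^ r = w(A / F)`. -/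
def ParityOver (D : ToricData K) (g : ℕ) (F : IntermediateField K (AlgebraicClosure K)) : Prop :=
  ∃ (_ : NumberField F) (r : ℕ), Module.rank ℤ (points α F) = r ∧ (-1) ^ r = D.rootNumber g F

/-- The parity conjecture for `A` over `K`: the rank `r` of `A(K)` is finite and
`(-1) ^ r = w(A / K)`. -/
def Parity (D : ToricData K) (g : ℕ) : Prop :=
  ∃ r : ℕ, Module.rank ℤ (basePoints α) = r ∧ (-1) ^ r = D.rootNumber g K

end

section
variable {K : Type} [Field K] {A : Type} [AddCommGroup A]
  (α : Representation ℤ Gal(AlgebraicClosure K/K) A)

/-- The group `E(K̄)` -/
abbrev EPoint (E : WeierstrassCurve K) : Type :=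
  (E.map (algebraMap K (AlgebraicClosure K))).toAffine.Point

/-- The action of an automorphism of `K̄` over `K` on `E(K̄)` -/
noncomputable def actE (E : WeierstrassCurve K) (σ : Gal(AlgebraicClosure K/K)) :
    EPoint E →+ EPoint E :=
  WeierstrassCurve.Affine.Point.map (W' := E) (σ : AlgebraicClosure K →ₐ[K] AlgebraicClosure K)

/-- The elliptic curve `E` is, up to isogeny, a factor of `A`: there is a homomorphism from `E(K̄)` to
`A = A(K̄)`, equivariant for the absolute Galois group of `K`, whose kernel is a torsion group (for
example the homomorphism given by an isogeny from `E` to an abelian subvariety of `A`). -/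
def IsFactor (E : WeierstrassCurve K) : Prop :=
  ∃ φ : EPoint E →+ A, (∀ (σ : Gal(AlgebraicClosure K/K)) (P : EPoint E),
      φ (actE E σ P) = α σ (φ P)) ∧
    ∀ P : EPoint E, φ P = 0 → ∃ n : ℕ, 0 < n ∧ n • P = 0

end

/-- A finite list of number fields `F_j` between `K` and its algebraic closure, and a set `J` of
indices. -/
structure FieldList (K : Type) [Field K] where
  /-- the length of the list -/
  N : ℕ
  /-- the fields -/
  F : Fin N → IntermediateField K (AlgebraicClosure K)
  /-- they are number fields -/
  nf : ∀ j, NumberField (F j)
  /-- the set of indices -/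
  J : Finset (Fin N)

instance {K : Type} [Field K] (X : FieldList K) (j : Fin X.N) : NumberField (X.F j) := X.nf j

section
variable {K : Type} [Field K] [NumberField K] (X : FieldList K)

/-- The Galois groups of `L F_j / F_j` are `2`-hyperelementary, and `n` divides the local degrees of
all `F_j / K` at the primes above `S`. -/
def FieldList.InClass (L : Type) [Field L] [Algebra K L] (S : Set (HeightOneSpectrum (𝓞 K)))
    (n : ℕ) : Prop :=
  ∀ j, Pool.Agent.N19.BR.FDef.TwoClass L S n (⟨X.F j⟩ : Ext K)

/-- The ranks of the groups `A(F_j)` are at least `R`. -/
def FieldList.RankAtLeast (R : ℕ) {A : Type} [AddCommGroup A]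
    (α : Representation ℤ Gal(AlgebraicClosure K/K) A) : Prop :=
  ∀ j, (R : Cardinal) ≤ Module.rank ℤ (points α (X.F j))

/-- `(-1)^{rk A(K)} w(A / K) = ∏_{j ∈ J} (-1)^{rk A(F_j)} w(A / F_j)`: if the ranks of the groups `A(F_j)`
are natural numbers `r_j` (they are finite by the Mordell-Weil theorem), then the rank of `A(K)` is a
natural number and the formula holds. -/
def FieldList.ParityFormula {A : Type} [AddCommGroup A]
    (α : Representation ℤ Gal(AlgebraicClosure K/K) A) (D : ToricData K) (g : ℕ) : Prop :=
  ∀ r : Fin X.N → ℕ, (∀ j, Module.rank ℤ (points α (X.F j)) = r j) →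
    ∃ r₀ : ℕ, Module.rank ℤ (basePoints α) = r₀ ∧
      (-1) ^ r₀ * D.rootNumber g K = ∏ j ∈ X.J, (-1) ^ r j * D.rootNumber g (X.F j)

/-- For all semistable abelian varieties `A` over `K` (an abelian group `A = A(K̄)` with an action `α` of
the absolute Galois group of `K`, toric data `D` and the dimension `g`) the formula
`(-1)^{rk A(K)} w(A / K) = ∏_{j ∈ J} (-1)^{rk A(F_j)} w(A / F_j)` holds, and if the parity conjecture holds
for `A` over all `F_j`, then it holds for `A` over `K`. -/
def FieldList.HoldsForAll : Prop :=
  ∀ (A : Type) [AddCommGroup A] (α : Representation ℤ Gal(AlgebraicClosure K/K) A)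
    (D : ToricData K) (g : ℕ), X.ParityFormula α D g ∧
      ((∀ j, ParityOver α D g (X.F j)) → Parity α D g)

end

end Pool.Agent.N683.AV
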