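import Pool.Agent.N683.AV.Defs
import Pool.Agent.N683.H2.Par2
import Pool.Agent.N19.BR.ParSel

/-! The parity formula for semistable abelian varieties. -/

set_option autoImplicit false

namespace Pool.Agent.N683.AV

open NumberField IsDedekindDomain
open Pool.Agent.R433.MD
open Pool.Agent.N19.BR (IsRel glob_rel loc_rel places_rel Opt parity_prod nonempty_of_rel)
open Pool.Agent.N19.BR.FDef (TwoClass)
open scoped Classical

section
variable {K : Type} [Field K] [NumberField K] (D : ToricData K)

theorem below_eq {F : Type} [Field F] [NumberField F] [Algebra K F] (w : HeightOneSpectrum (𝓞 F)) :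
    below (K := K) w = und w := rfl

theorem deg_eq {F : Type} [Field F] [NumberField F] [Algebra K F] {v : HeightOneSpectrum (𝓞 K)}
    (w : Fib F v) : w.1.asIdeal.inertiaDeg (𝓞 K) = fdeg w := by
  have h1 : w.1.asIdeal.LiesOver v.asIdeal := ⟨fib_le w⟩
  have h2 : v.asIdeal.IsMaximal := v.isMaximal
  have h3 : w.1.asIdeal.IsMaximal := w.1.isMaximal
  rw [Ideal.inertiaDeg_eq_of_isMaximal v.asIdeal w.1.asIdeal]
  unfold fdeg
  have e : (Ideal.Quotient.algebraOfLiesOver w.1.asIdeal v.asIdeal) = (algFib w) := by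
    apply Algebra.algebra_ext
    intro r
    obtain ⟨x, rfl⟩ := Ideal.Quotient.mk_surjective r
    rfl
  rw [← e]

theorem b_eq {F : Type} [Field F] [NumberField F] [Algebra K F] {v : HeightOneSpectrum (𝓞 K)}
    (w : Fib F v) : D.b w.1 = D.fixedRank v (fdeg w) := by
  unfold ToricData.b
  rw [deg_eq w, below_eq, w.2]

theorem fixedRank_zero {v : HeightOneSpectrum (𝓞 K)} (h : D.t v = 0) (f : ℕ) :
    D.fixedRank v f = 0 := by
  unfold ToricData.fixedRank
  omega

theorem b_support {F : Type} [Field F] [NumberField F] [Algebra K F] (w : HeightOneSpectrum (𝓞 F))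
    (h : D.b (K := K) w ≠ 0) : und w ∈ D.finite_bad.toFinset := by
  rw [Set.Finite.mem_toFinset, Set.mem_ofPred_eq]
  intro h1
  exact h (fixedRank_zero D h1 _)

theorem finite_supp (F : Type) [Field F] [NumberField F] [Algebra K F] :
    {w : HeightOneSpectrum (𝓞 F) | D.b (K := K) w ≠ 0}.Finite := by
  have h1 : {w : HeightOneSpectrum (𝓞 F) | D.b (K := K) w ≠ 0} ⊆
      ⋃ v ∈ D.finite_bad.toFinset, Set.range (Subtype.val : Fib F v → HeightOneSpectrum (𝓞 F)) := by
    intro w hw
    rw [Set.mem_iUnion₂]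
    exact ⟨und w, b_support D w hw, ⟨w, rfl⟩, rfl⟩
  refine Set.Finite.subset ?_ h1
  exact Set.Finite.biUnion (Finset.finite_toSet _) fun v _ => Set.finite_range _

/-- the exponent of the root number -/
noncomputable def expo (g : ℕ) (F : Type) [Field F] [NumberField F] [Algebra K F] : ℕ :=
  g * Nat.card (InfinitePlace F) + ∑ᶠ w : HeightOneSpectrum (𝓞 F), D.b (K := K) w

theorem root_eq (g : ℕ) (F : Type) [Field F] [NumberField F] [Algebra K F] :
    D.rootNumber g F = (-1) ^ expo D g F := by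
  unfold ToricData.rootNumber expo
  rw [Finset.prod_const, Finset.card_univ, ← pow_mul, pow_add, Nat.card_eq_fintype_card]
  congr 1
  have hf := finite_supp D F
  rw [finprod_eq_prod_of_mulSupport_subset (s := hf.toFinset) _ (by
      intro w hw
      rw [Set.Finite.coe_toFinset, Set.mem_ofPred_eq]
      intro h
      apply hw
      change (-1 : ℤ) ^ D.b w = 1
      rw [h, pow_zero]),
    finsum_eq_sum_of_support_subset (s := hf.toFinset) _ (by
      intro w hw
      rw [Set.Finite.coe_toFinset]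
      exact hw), Finset.prod_pow_eq_pow_sum]

variable {ι : Type} [Fintype ι] {Z : ι → Ext K} {e : ι → ℤ} {m : ℕ}

/-- the relation between the exponents of the root numbers -/
theorem expo_rel (g : ℕ) (h : IsRel K Z e m) :
    ∑ i, e i * (expo D g (Z i).F : ℤ) = m * (expo D g K : ℤ) := by
  have h1 := glob_rel h (M := ℤ) (fun i w => (D.b (K := K) w : ℤ)) D.finite_bad.toFinset
    (fun i w hw => b_support D w (by exact_mod_cast hw))
    (fun v => ⟨fun n => (D.fixedRank v n : ℤ), fun i w => by
      rw [b_eq D w]⟩)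
  have hs : ∀ (F : Type) [Field F] [NumberField F] [Algebra K F],
      ((∑ᶠ w : HeightOneSpectrum (𝓞 F), D.b (K := K) w : ℕ) : ℤ) =
        ∑ᶠ w : HeightOneSpectrum (𝓞 F), (D.b (K := K) w : ℤ) := by
    intro F _ _ _
    have hf := finite_supp D F
    rw [finsum_eq_sum_of_support_subset (s := hf.toFinset) _ (by
      intro w hw
      rw [Set.Finite.coe_toFinset]
      exact hw), finsum_eq_sum_of_support_subset (s := hf.toFinset) _ (by
      intro w hw
      rw [Set.Finite.coe_toFinset]
      intro h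
      apply hw
      change ((D.b (K := K) w : ℕ) : ℤ) = 0
      rw [h, Nat.cast_zero]), Nat.cast_sum]
  have h2 : ∑ i, e i * ((∑ᶠ w : HeightOneSpectrum (𝓞 (Z i).F), D.b (K := K) w : ℕ) : ℤ) =
      m * ((∑ᶠ w : HeightOneSpectrum (𝓞 K), D.b (K := K) w : ℕ) : ℤ) := by
    simp_rw [hs]
    rw [← nsmul_eq_mul]
    simp_rw [← smul_eq_mul (a := e _)]
    exact h1
  have h3 := places_rel h
  unfold expo
  push_cast
  have h4 : ∀ i, e i * ((g : ℤ) * (Nat.card (InfinitePlace (Z i).F) : ℤ) +
      ((∑ᶠ w : HeightOneSpectrum (𝓞 (Z i).F), D.b (K := K) w : ℕ) : ℤ)) =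
      g * (e i * (Nat.card (InfinitePlace (Z i).F) : ℤ)) +
        e i * ((∑ᶠ w : HeightOneSpectrum (𝓞 (Z i).F), D.b (K := K) w : ℕ) : ℤ) := fun i => by ring
  rw [Finset.sum_congr rfl fun i _ => h4 i, Finset.sum_add_distrib, ← Finset.mul_sum, h3, h2]
  ring

end

section
variable {K : Type} [Field K] [NumberField K] {A : Type} [AddCommGroup A]
  (α : Representation ℤ Gal(AlgebraicClosure K/K) A)

theorem points_eq (F : IntermediateField K (AlgebraicClosure K)) : points α F = inv α F := rfl

/-- **The parity formula.** -/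
theorem formula {N : ℕ} (F : Fin N → IntermediateField K (AlgebraicClosure K))
    (hF : ∀ j, NumberField (F j)) {e : Fin N → ℤ} {m : ℕ} (hm : Odd m)
    (h : IsRel K (fun j => (⟨F j⟩ : Ext K)) e m) (D : ToricData K) (g : ℕ) :
    (⟨N, F, hF, Finset.univ.filter fun i => Odd (e i)⟩ : FieldList K).ParityFormula α D g := by
  intro r hr
  have hne : Nonempty (Fin N) := nonempty_of_rel hm.pos.ne' h
  obtain ⟨r0, h0, h1⟩ := rank_rel α F h r hr
  refine ⟨r0, h0, ?_⟩
  have h2 := expo_rel D g h
  have h3 : ∑ i, e i * ((r i + expo D g (F i) : ℕ) : ℤ) = m * ((r0 + expo D g K : ℕ) : ℤ) := by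
    push_cast
    rw [mul_add, ← h1]
    rw [← h2, ← Finset.sum_add_distrib]
    exact Finset.sum_congr rfl fun i _ => by ring
  have h4 := parity_prod e hm _ h3
  have h5 : ∀ (r : ℕ) (F : Type) [Field F] [NumberField F] [Algebra K F],
      (-1) ^ r * D.rootNumber g F = (((-1 : ℤˣ) ^ ((r + expo D g F : ℕ) : ℤ) : ℤˣ) : ℤ) := by
    intro r F _ _ _
    rw [root_eq, ← pow_add, zpow_natCast]
    push_cast
    rfl
  rw [h5 r0 K, h4, Units.coe_prod]
  refine Finset.prod_congr rfl fun i _ => ?_
  rw [h5]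

theorem root_sq (D : ToricData K) (g : ℕ) (F : Type) [Field F] [NumberField F] [Algebra K F] :
    D.rootNumber g F * D.rootNumber g F = 1 := by
  rw [root_eq, ← pow_add, ← two_mul, pow_mul]
  norm_num

theorem parity_of_formula {X : FieldList K} {D : ToricData K} {g : ℕ}
    (h : X.ParityFormula α D g) (hZ : ∀ j, ParityOver α D g (X.F j)) : Parity α D g := by
  choose _ r hr hp using hZ
  obtain ⟨r0, h0, h1⟩ := h r hr
  refine ⟨r0, h0, ?_⟩
  have h2 : ∏ j ∈ X.J, (-1) ^ r j * D.rootNumber g (X.F j) = 1 := by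
    refine Finset.prod_eq_one fun j _ => ?_
    rw [hp j]
    exact root_sq D g (X.F j)
  rw [h2] at h1
  calc (-1) ^ r0 = (-1) ^ r0 * (D.rootNumber g K * D.rootNumber g K) := by rw [root_sq, mul_one]
    _ = ((-1) ^ r0 * D.rootNumber g K) * D.rootNumber g K := by ring
    _ = D.rootNumber g K := by rw [h1, one_mul]

end

/-- The list of the fields. -/
theorem list (K : Type) [Field K] [NumberField K] (L : Type) [Field L] [NumberField L]
    [Algebra K L] [IsGalois K L] (S : Set (HeightOneSpectrum (𝓞 K))) (hS : S.Finite) (n : ℕ)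
    (hn : Odd n) : ∃ X : FieldList K, X.InClass L S n ∧ X.HoldsForAll := by
  obtain ⟨N, Z, e, m, hm, hrel, hZ⟩ := Pool.Agent.N19.BR.list_two K L hS hn
  refine ⟨⟨N, fun j => Pool.Agent.N19.BR.img (Z j), fun j => Pool.Agent.N19.BR.img_nf (Z j),
    Finset.univ.filter fun i => Odd (e i)⟩, fun j => Pool.Agent.N19.BR.img_two (Z j) (hZ j),
    fun A _ α D g => ?_⟩
  have h := formula α (fun j => Pool.Agent.N19.BR.img (Z j))
    (fun j => Pool.Agent.N19.BR.img_nf (Z j)) hm (Pool.Agent.N19.BR.isRel_img' hrel) D g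
  exact ⟨h, parity_of_formula α h⟩

/-- The rank of a factor is at most the rank of `A`. -/
theorem rank_factor {K : Type} [Field K] {A : Type} [AddCommGroup A]
    (α : Representation ℤ Gal(AlgebraicClosure K/K) A) (E : WeierstrassCurve K)
    (h : IsFactor α E) (F : IntermediateField K (AlgebraicClosure K)) :
    Module.rank ℤ (E.map (algebraMap K F)).toAffine.Point ≤ Module.rank ℤ (points α F) := by
  obtain ⟨φ, h1, h2⟩ := h
  let i : (E.map (algebraMap K F)).toAffine.Point →+ EPoint E :=
    WeierstrassCurve.Affine.Point.map (W' := E) F.val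
  have hi : Function.Injective i := WeierstrassCurve.Affine.Point.map_injective F.val
  have hfix : ∀ (σ : Gal(AlgebraicClosure K/K)), (∀ x ∈ F, σ x = x) → ∀ P, actE E σ (i P) = i P := by
    intro σ hσ P
    have e1 : (σ : AlgebraicClosure K →ₐ[K] AlgebraicClosure K).comp F.val = F.val := by
      ext x
      exact hσ x x.2
    have e2 := Pool.Agent.R333.BR.mp_mp E F.val
      (σ : AlgebraicClosure K →ₐ[K] AlgebraicClosure K) P
    rw [e1] at e2
    exact e2
  let g : (E.map (algebraMap K F)).toAffine.Point →ₗ[ℤ] points α F :=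
    { toFun := fun P => ⟨φ (i P), by
        refine (mem_inv α).2 fun σ hσ => ?_
        rw [← h1, hfix σ hσ P]⟩
      map_add' := fun P Q => Subtype.ext (by
        change φ (i (P + Q)) = φ (i P) + φ (i Q)
        rw [map_add, map_add])
      map_smul' := fun n P => Subtype.ext (by
        change φ (i (n • P)) = n • φ (i P)
        rw [map_zsmul, map_zsmul]) }
  have hk : Module.rank ℤ (LinearMap.ker g) = 0 := by
    rw [rank_eq_zero_iff]
    rintro ⟨P, hP⟩
    have h3 : φ (i P) = 0 := congrArg Subtype.val hP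
    obtain ⟨n, hn, h4⟩ := h2 _ h3
    refine ⟨(n : ℤ), by exact_mod_cast hn.ne', ?_⟩
    apply Subtype.ext
    apply hi
    change i ((n : ℤ) • P) = i 0
    rw [map_zsmul, map_zero, natCast_zsmul, h4]
  have h5 := LinearMap.rank_range_add_rank_ker g
  rw [hk, add_zero] at h5
  rw [← h5]
  exact Submodule.rank_le _

/-- The list of the fields over which an elliptic curve has large rank. -/
theorem list_rank {K : Type} [Field K] [NumberField K] (E : WeierstrassCurve K)
    (hE : E.IsElliptic) (h0 : E.j ≠ 0) (h1 : E.j ≠ 1728) (L : Type) [Field L] [NumberField L]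
    [Algebra K L] [IsGalois K L] (S : Set (HeightOneSpectrum (𝓞 K))) (hS : S.Finite) (n : ℕ)
    (hn : Odd n) (R : ℕ) :
    ∃ X : FieldList K, X.InClass L S n ∧ X.HoldsForAll ∧
      ∀ (A : Type) [AddCommGroup A] (α : Representation ℤ Gal(AlgebraicClosure K/K) A),
        IsFactor α E → X.RankAtLeast R α := by
  obtain ⟨N, Z, e, m, hm, hrel, hZ⟩ := Pool.Agent.N683.H2.list_two2 E hE h0 h1 L hS hn R
  refine ⟨⟨N, fun j => Pool.Agent.N19.BR.img (Z j), fun j => Pool.Agent.N19.BR.img_nf (Z j),
    Finset.univ.filter fun i => Odd (e i)⟩,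
    fun j => Pool.Agent.N19.BR.img_two (Z j) (hZ j).1, fun A _ α D g => ?_,
    fun A _ α hα j => ?_⟩
  · have h := formula α (fun j => Pool.Agent.N19.BR.img (Z j))
      (fun j => Pool.Agent.N19.BR.img_nf (Z j)) hm (Pool.Agent.N19.BR.isRel_img' hrel) D g
    exact ⟨h, parity_of_formula α h⟩
  · refine ((hZ j).2.trans ?_).trans (rank_factor α E hα (Pool.Agent.N19.BR.img (Z j)))
    let f : (Z j).F →ₐ[K] Pool.Agent.N19.BR.img (Z j) :=
      ((Pool.Agent.N19.BR.imgEquiv (Z j) : (Z j).F ≃ₐ[K] _) : (Z j).F →ₐ[K] _)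
    let g := (WeierstrassCurve.Affine.Point.map (W' := E) f).toIntLinearMap
    exact LinearMap.rank_le_of_injective g (WeierstrassCurve.Affine.Point.map_injective f)

end Pool.Agent.N683.AV
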